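import Pool.Agent.Q278.Hub.Lower

/-! MP_7e79aa_co: the strong hub cover pebbling number of cycles is the conjectured value. -/

namespace Pool.Agent.Results.MP_7e79aa_co.CycleValue
open Finset Pool.Agent.Q278.Hub

/-- There is a walk from `x` to `x + m` through `x, x + 1, ..., x + m`. -/
theorem walk_pos (k : ℕ) {G : SimpleGraph (ZMod (k + 3))} (hG : ∀ v, G.Adj v (v + 1))
    (x : ZMod (k + 3)) (m : ℕ) (y : ZMod (k + 3)) (hy : y = x + (m : ZMod (k + 3))) :
    ∃ p : G.Walk x y, ∀ v ∈ p.support, ∃ l : ℕ, l ≤ m ∧ v = x + (l : ZMod (k + 3)) := by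
  induction m generalizing y with
  | zero =>
    have : y = x := by rw [hy]; simp
    subst this
    refine ⟨SimpleGraph.Walk.nil, fun v hv => ⟨0, le_refl _, ?_⟩⟩
    rw [SimpleGraph.Walk.support_nil, List.mem_singleton] at hv
    rw [hv]; simp
  | succ m ih =>
    obtain ⟨p, hp⟩ := ih (x + (m : ZMod (k + 3))) rfl
    have hadj : G.Adj (x + (m : ZMod (k + 3))) y := by
      have h1 := hG (x + (m : ZMod (k + 3)))
      have h2 : x + (m : ZMod (k + 3)) + 1 = y := by
        rw [hy]; push_cast; ring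
      rwa [h2] at h1
    refine ⟨p.append (SimpleGraph.Walk.cons hadj SimpleGraph.Walk.nil), fun v hv => ?_⟩
    rw [SimpleGraph.Walk.mem_support_append_iff] at hv
    rcases hv with hv | hv
    · obtain ⟨l, hl, hv⟩ := hp v hv
      exact ⟨l, by omega, hv⟩
    · rw [SimpleGraph.Walk.support_cons, SimpleGraph.Walk.support_nil, List.mem_cons,
        List.mem_singleton] at hv
      rcases hv with hv | hv
      · exact ⟨m, by omega, hv⟩
      · exact ⟨m + 1, le_refl _, by rw [hv, hy]⟩

/-- The complement of `{a, a + 1}` is a strong hub set. -/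
theorem hub_compl (k : ℕ) {G : SimpleGraph (ZMod (k + 3))} (hG : ∀ v, G.Adj v (v + 1))
    (a : ZMod (k + 3)) : StrongHub G {x | x ≠ a ∧ x ≠ a + 1} := by
  have hcast : ∀ i : ℕ, i < k + 3 → ∀ j : ℕ, j < k + 3 →
      ((i : ZMod (k + 3)) = (j : ZMod (k + 3))) → i = j := by
    intro i hi j hj h
    have := (ZMod.natCast_eq_natCast_iff' i j (k + 3)).1 h
    rwa [Nat.mod_eq_of_lt hi, Nat.mod_eq_of_lt hj] at this
  -- the path from the vertex in position `i` to the one in position `j`, `i < j`
  have key : ∀ i j : ℕ, i < j → j < k + 3 → ∀ x y : ZMod (k + 3),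
      x = a + 1 + (i : ZMod (k + 3)) → y = a + 1 + (j : ZMod (k + 3)) →
      ∃ p : G.Walk x y, p.IsPath ∧ ∀ v ∈ p.support, v = x ∨ v = y ∨ (v ≠ a ∧ v ≠ a + 1) := by
    intro i j hij hj x y hx hy
    obtain ⟨p, hp⟩ := walk_pos k hG x (j - i) y (by
      rw [hy, hx, Nat.cast_sub hij.le]; ring)
    refine ⟨p.bypass, p.bypass_isPath, fun v hv => ?_⟩
    obtain ⟨l, hl, hv⟩ := hp v (p.support_bypass_subset_support hv)
    rcases Nat.eq_zero_or_pos l with h0 | h0
    · left; rw [hv, h0]; simp
    rcases Nat.lt_or_ge l (j - i) with h1 | h1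
    · right; right
      have hv' : v = a + 1 + ((i + l : ℕ) : ZMod (k + 3)) := by
        rw [hv, hx]; push_cast; ring
      constructor
      · intro hva
        rw [hva] at hv'
        have h5 : ((i + l + 1 : ℕ) : ZMod (k + 3)) = ((0 : ℕ) : ZMod (k + 3)) := by
          push_cast
          push_cast at hv'
          linear_combination -hv'
        have := hcast (i + l + 1) (by omega) 0 (by omega) h5
        omega
      · intro hva
        rw [hva] at hv'
        have h5 : ((i + l : ℕ) : ZMod (k + 3)) = ((0 : ℕ) : ZMod (k + 3)) := by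
          push_cast
          push_cast at hv'
          linear_combination -hv'
        have := hcast (i + l) (by omega) 0 (by omega) h5
        omega
    · right; left
      have : l = j - i := le_antisymm hl h1
      rw [hv, this, hy, hx, Nat.cast_sub hij.le]; ring
  refine ⟨⟨a + 2, ?_, ?_⟩, fun x y hxy => ?_⟩
  · intro h
    have h5 : ((2 : ℕ) : ZMod (k + 3)) = ((0 : ℕ) : ZMod (k + 3)) := by
      push_cast
      linear_combination h
    have := hcast 2 (by omega) 0 (by omega) h5
    omega
  · intro h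
    have h5 : ((1 : ℕ) : ZMod (k + 3)) = ((0 : ℕ) : ZMod (k + 3)) := by
      push_cast
      linear_combination h
    have := hcast 1 (by omega) 0 (by omega) h5
    omega
  · have hpos : ∀ z : ZMod (k + 3), ∃ i : ℕ, i < k + 3 ∧ z = a + 1 + (i : ZMod (k + 3)) := by
      intro z
      refine ⟨(z - (a + 1)).val, ZMod.val_lt _, ?_⟩
      rw [ZMod.natCast_zmod_val]; ring
    obtain ⟨i, hi, hxi⟩ := hpos x
    obtain ⟨j, hj, hyj⟩ := hpos y
    rcases lt_trichotomy i j with h | h | h
    · exact key i j h hj x y hxi hyj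
    · exact absurd (by rw [hxi, hyj, h]) hxy
    · obtain ⟨p, hp1, hp2⟩ := key j i h hi y x hyj hxi
      refine ⟨p.reverse, hp1.reverse, fun v hv => ?_⟩
      rw [SimpleGraph.Walk.support_reverse, List.mem_reverse] at hv
      rcases hp2 v hv with h | h | h
      · exact Or.inr (Or.inl h)
      · exact Or.inl h
      · exact Or.inr (Or.inr h)

theorem upper' (k : ℕ) {G : SimpleGraph (ZMod (k + 3))} (hG : ∀ v, G.Adj v (v + 1))
    (c : ZMod (k + 3) → ℕ) (hc : ∑ v, c v = phi k + 1) :
    ∃ c', Reach G c c' ∧ ∃ U : Set (ZMod (k + 3)), StrongHub G U ∧ ∀ u ∈ U, 1 ≤ c' u := by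
  obtain ⟨c', hr, a, ha⟩ := main (n := k + 3) (by omega) hG c
    (by rw [hc, Nat.add_sub_cancel])
  exact ⟨c', hr, _, hub_compl k hG a, fun u hu => ha u hu.1 hu.2⟩

theorem upper (k : ℕ) : Suffices (SimpleGraph.cycleGraph (k + 3)) (phi k + 1) := by
  intro c hc
  refine upper' k (G := SimpleGraph.cycleGraph (k + 3)) (fun v => ?_) c hc
  have h1 : (v + 1 : ZMod (k + 3)) - v = 1 := by ring
  generalize (v + 1 : ZMod (k + 3)) = w at h1 ⊢
  exact (SimpleGraph.cycleGraph_adj (n := k + 1) (u := v) (v := w)).2 (Or.inr h1)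

/-- The strong hub cover pebbling number of the cycle `C_n` is `2^k + 2^(k-1) - 3` for `n = 2k`
and `2^(k+1) - 3` for `n = 2k + 1`, for every `n ≥ 3`. -/
theorem result (n : ℕ) (hn : 3 ≤ n) :
    (∀ k, n = 2 * k →
      IsLeast {t : ℕ | Suffices (SimpleGraph.cycleGraph n) t} (2 ^ k + 2 ^ (k - 1) - 3)) ∧
    (∀ k, n = 2 * k + 1 →
      IsLeast {t : ℕ | Suffices (SimpleGraph.cycleGraph n) t} (2 ^ (k + 1) - 3)) := by
  constructor
  · rintro k rfl
    obtain ⟨J, rfl⟩ : ∃ J, k = J + 2 := ⟨k - 2, by omega⟩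
    have hp : (2 : ℕ) ^ (J + 2) = 2 * 2 ^ (J + 1) := pow_succ' _ _
    have hp1 : 1 ≤ (2 : ℕ) ^ (J + 1) := Nat.one_le_two_pow
    have hp2 : (2 : ℕ) ^ (J + 1) = 2 * 2 ^ J := pow_succ' _ _
    have hp3 : 1 ≤ (2 : ℕ) ^ J := Nat.one_le_two_pow
    rw [show J + 2 - 1 = J + 1 by omega]
    constructor
    · have h1 := upper (2 * J + 1)
      have h2 := (phi_even J).2
      rw [show phi (2 * J + 1) + 1 = 2 ^ (J + 2) + 2 ^ (J + 1) - 3 by omega] at h1
      exact h1
    · intro t ht
      have h1 := lower hn (M := 2 ^ (J + 2) + 2 ^ (J + 1)) (t := t) (fun a => ?_)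
        (fun a b hab => ?_) ht
      · have h2 := total_even (J + 2)
        omega
      · have : wgt a ≤ 2 ^ (J + 2) := by
          unfold wgt
          exact Nat.pow_le_pow_right (by norm_num) (by omega)
        omega
      · have ha := a.isLt
        have hb := b.isLt
        have hw : ∀ v : Fin (2 * (J + 2)), wgt v ≤ 2 ^ (J + 2) := by
          intro v
          unfold wgt
          exact Nat.pow_le_pow_right (by norm_num) (by omega)
        have hw' : ∀ v : Fin (2 * (J + 2)), v.val ≠ J + 2 → wgt v ≤ 2 ^ (J + 1) := by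
          intro v hv
          unfold wgt
          exact Nat.pow_le_pow_right (by norm_num) (by omega)
        have h1 := hw a
        have h2 := hw b
        by_cases h : a.val = J + 2
        · have := hw' b (by omega)
          omega
        · have := hw' a h
          omega
  · rintro k rfl
    obtain ⟨J, rfl⟩ : ∃ J, k = J + 1 := ⟨k - 1, by omega⟩
    have hp : (2 : ℕ) ^ (J + 2) = 2 * 2 ^ (J + 1) := pow_succ' _ _
    have hp1 : 1 ≤ (2 : ℕ) ^ (J + 1) := Nat.one_le_two_pow
    have hp2 : (2 : ℕ) ^ (J + 1) = 2 * 2 ^ J := pow_succ' _ _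
    have hp3 : 1 ≤ (2 : ℕ) ^ J := Nat.one_le_two_pow
    constructor
    · have h1 := upper (2 * J)
      have h2 := (phi_even J).1
      rw [show phi (2 * J) + 1 = 2 ^ (J + 1 + 1) - 3 by
        rw [show J + 1 + 1 = J + 2 by ring]; omega] at h1
      exact h1
    · intro t ht
      have hw : ∀ v : Fin (2 * (J + 1) + 1), wgt v ≤ 2 ^ (J + 1) := by
        intro v
        unfold wgt
        exact Nat.pow_le_pow_right (by norm_num) (by omega)
      have h1 := lower hn (M := 2 ^ (J + 2)) (t := t) (fun a => by have := hw a; omega)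
        (fun a b hab => by have := hw a; have := hw b; omega) ht
      have h2 := total_odd (J + 1)
      rw [show J + 1 + 1 = J + 2 by ring]
      omega

end Pool.Agent.Results.MP_7e79aa_co.CycleValue
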